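import Mathlib

/-!
# Codes closed under operations (polymorphism dichotomy): definitions and statements of the parts

Library for `MP_0430e4_lc` (asymptotic rate of the best binary codes), by helper817.
-/

namespace Pool.Agent.Y817.PD

/-- A signature: operation symbols `J` with their arities. -/
structure Sig where
  J : Type
  ar : J → ℕ

/-- Terms of the signature `S` in the variables `V`. -/
inductive Term (S : Sig) (V : Type) : Type
  | var (v : V) : Term S V
  | app (j : S.J) (t : Fin (S.ar j) → Term S V) : Term S V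

/-- An algebra of signature `S` on the set `A`: one operation for every symbol. -/
abbrev Alg (S : Sig) (A : Type) : Type := ∀ j : S.J, (Fin (S.ar j) → A) → A

/-- The value of a term. -/
def Term.eval {S : Sig} {V A : Type} (F : Alg S A) (x : V → A) : Term S V → A
  | .var v => x v
  | .app j t => F j (fun l => (t l).eval F x)

/-- `U` is closed under all operations. -/
def Closed {S : Sig} {A : Type} (F : Alg S A) (U : Set A) : Prop :=
  ∀ (j : S.J) (x : Fin (S.ar j) → A), (∀ l, x l ∈ U) → F j x ∈ U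

/-- All operations are idempotent. -/
def Idem {S : Sig} {A : Type} (F : Alg S A) : Prop := ∀ (j : S.J) (a : A), F j (fun _ => a) = a

/-- The term condition on `U`: `t(x,y) = t(x,y')` implies `t(x',y) = t(x',y')` for all terms `t` and
all tuples `x, x', y, y'` of elements of `U`. -/
def Abelian {S : Sig} {A : Type} (F : Alg S A) (U : Set A) : Prop :=
  ∀ (V W : Type) [Finite V] [Finite W] (t : Term S (V ⊕ W)) (x x' : V → A) (y y' : W → A),
    (∀ v, x v ∈ U) → (∀ v, x' v ∈ U) → (∀ w, y w ∈ U) → (∀ w, y' w ∈ U) →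
    t.eval F (Sum.elim x y) = t.eval F (Sum.elim x y') →
    t.eval F (Sum.elim x' y) = t.eval F (Sum.elim x' y')

/-- The product algebra of the algebras `F i`, one for every coordinate. -/
def prodAlg {S : Sig} {A ι : Type} (F : ι → Alg S A) : Alg S (ι → A) :=
  fun j x i => F i j (fun l => x l i)

/-- Minimum distance at least `d`. -/
def MinDist {ι A : Type} [Fintype ι] [DecidableEq A] (C : Finset (ι → A)) (d : ℕ) : Prop :=
  ∀ x ∈ C, ∀ y ∈ C, x ≠ y → d ≤ hammingDist x y

/-- `A_q(n,d)`: the largest size of a code of length `n` over `A` with minimum distance `≥ d`. -/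
noncomputable def maxCode (A : Type) [Fintype A] [DecidableEq A] (n d : ℕ) : ℕ :=
  sSup {m | ∃ C : Finset (Fin n → A), MinDist C d ∧ C.card = m}

/-- Affine Boolean functions. -/
def Affine {k : ℕ} (f : (Fin k → ZMod 2) → ZMod 2) : Prop :=
  ∃ (a : Fin k → ZMod 2) (c : ZMod 2), ∀ x, f x = c + ∑ l, a l * x l

/-- UPPER. Outside `T` the coordinate algebras have no nontrivial abelian subalgebra. -/
def StmUpper : Prop :=
  ∀ (S : Sig) (A : Type) [Fintype A] [DecidableEq A] (n d : ℕ) (F : Fin n → Alg S A)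
    (T : Finset (Fin n)) (C : Finset (Fin n → A)),
    1 ≤ d → (∀ i, Idem (F i)) →
    (∀ i, i ∉ T → ∀ U : Set A, Closed (F i) U → U.Nontrivial → ¬ Abelian (F i) U) →
    Closed (prodAlg F) (C : Set (Fin n → A)) → MinDist C d →
    C.card ^ d ≤ Fintype.card A ^ n * maxCode A T.card d ^ d

/-- BIN. Binary codes closed under one operation `f = (f i)`, not affine outside `T`. -/
def StmBin : Prop :=
  ∀ (n d k : ℕ) (f : Fin n → (Fin k → ZMod 2) → ZMod 2) (T : Finset (Fin n))
    (C : Finset (Fin n → ZMod 2)),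
    1 ≤ d → (∀ i, i ∉ T → ¬ Affine (f i)) →
    (∀ w : Fin k → (Fin n → ZMod 2), (∀ l, w l ∈ C) → (fun i => f i (fun l => w l i)) ∈ C) →
    MinDist C d → C.card ≤ 2 ^ (n / d) * maxCode (ZMod 2) T.card d

/-- CLASS. A finite idempotent abelian algebra without proper nontrivial subalgebras: all operations
are projections, or there is an abelian group structure for which all operations are additive. -/
def StmClass : Prop :=
  ∀ (S : Sig) (B : Type) [Finite B] [Nontrivial B] (F : Alg S B),
    Idem F → Abelian F Set.univ →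
    (∀ V : Set B, Closed F V → V.Subsingleton ∨ V = Set.univ) →
    (∀ j, ∃ l, ∀ x, F j x = x l) ∨
    ∃ G : AddCommGroup B, ∀ (j : S.J) (x y : Fin (S.ar j) → B),
      F j (fun l => G.add (x l) (y l)) = G.add (F j x) (F j y)

/-- GV. Linear codes over `F_p` containing the all-ones word. -/
def StmGV : Prop :=
  ∀ (p n : ℕ) [Fact p.Prime] (δ t : ℝ), 0 < δ → δ < 1 → 0 < t → t ≤ 1 →
    ∃ W : Submodule (ZMod p) (Fin n → ZMod p), (fun _ => (1 : ZMod p)) ∈ W ∧
      (∀ x ∈ W, x ≠ 0 → δ * n ≤ hammingNorm x) ∧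
      (p * t ^ δ / (1 + (p - 1) * t)) ^ n ≤ (Nat.card W : ℝ)

/-- LOW. Good codes from an abelian subalgebra. -/
def StmLow : Prop :=
  ∀ (S : Sig) (A : Type) [Fintype A] [DecidableEq A] (F : Alg S A) (U : Set A),
    Idem F → Closed F U → U.Nontrivial → Abelian F U →
    ∀ δ : ℝ, 0 < δ → δ < 1 / 2 → ∃ ρ : ℝ, 0 < ρ ∧ ∀ n : ℕ, ∃ C : Finset (Fin n → A),
      Closed (prodAlg fun _ => F) (C : Set (Fin n → A)) ∧
      (∀ x ∈ C, ∀ y ∈ C, x ≠ y → δ * n ≤ hammingDist x y) ∧ (2 : ℝ) ^ (ρ * n) ≤ C.card

end Pool.Agent.Y817.PD
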