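import Pool.Agent.Y817.PD.Fin

namespace Pool.Agent.Y817.PD

open Filter

lemma gv_const (δ : ℝ) (h0 : 0 < δ) (h1 : δ < 1 / 2) :
    Real.logb 2 (2 * (δ / (1 - δ)) ^ δ / (1 + (2 - 1) * (δ / (1 - δ)))) = 1 - H δ := by
  have h2 : 0 < 1 - δ := by linarith
  have h3 : 0 < δ / (1 - δ) := div_pos h0 h2
  have h4 : 1 + (2 - 1) * (δ / (1 - δ)) = (1 - δ)⁻¹ := by
    field_simp
    ring
  rw [h4, Real.logb_div (by positivity) (by positivity), Real.logb_mul (by norm_num) (by positivity),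
    Real.logb_rpow_eq_mul_logb_of_pos h3, Real.logb_div h0.ne' h2.ne', Real.logb_inv,
    Real.logb_self_eq_one (by norm_num)]
  unfold H
  ring

lemma affine_le {S : Sig} (F : Alg S (ZMod 2)) (hF : ∀ j, Affine (F j)) (δ : ℝ) (h0 : 0 < δ)
    (h1 : δ < 1 / 2) (n : ℕ) : (2 : ℝ) ^ ((1 - H δ) * n) ≤ maxClosed F n ⌈δ * n⌉₊ := by
  have : Fact (Nat.Prime 2) := ⟨Nat.prime_two⟩
  have h2 : 0 < 1 - δ := by linarith
  have h3 : 0 < δ / (1 - δ) := div_pos h0 h2
  have h4 : δ / (1 - δ) ≤ 1 := by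
    rw [div_le_one h2]
    linarith
  obtain ⟨W, h1W, hW, hcard⟩ := Pool.Agent.Y888.PD.t 2 n δ (δ / (1 - δ)) h0 (by linarith) h3 h4
  have e : (2 : ℝ) ^ ((1 - H δ) * n) =
      (((2 : ℕ) : ℝ) * (δ / (1 - δ)) ^ δ / (1 + (((2 : ℕ) : ℝ) - 1) * (δ / (1 - δ)))) ^ n := by
    rw [← gv_const δ h0 h1, pow_eq_two_rpow _ (by positivity)]
    norm_num
  rw [e]
  refine hcard.trans ?_
  rw [card_sub]
  classical
  have key := le_maxClosed (n := n) (d := ⌈δ * n⌉₊) F (Finset.univ.filter (fun x => x ∈ W)) ?_ ?_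
  · exact_mod_cast key
  · intro j x hx
    have hx' : ∀ l, x l ∈ W := fun l => by
      have := hx l
      rw [Finset.mem_coe, Finset.mem_filter] at this
      exact this.2
    rw [Finset.mem_coe, Finset.mem_filter]
    refine ⟨Finset.mem_univ _, ?_⟩
    obtain ⟨a, c, hac⟩ := hF j
    have : prodAlg (fun _ => F) j x = c • (fun _ => (1 : ZMod 2)) + ∑ l, a l • x l := by
      funext i
      simp only [prodAlg, hac, Pi.add_apply, Pi.smul_apply, smul_eq_mul, mul_one,
        Finset.sum_apply]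
    rw [this]
    exact W.add_mem (W.smul_mem _ h1W) (W.sum_mem fun l _ => W.smul_mem _ (hx' l))
  · intro x hx y hy hxy
    rw [Finset.mem_filter] at hx hy
    have h5 := hW _ (W.sub_mem hx.2 hy.2) (sub_ne_zero.2 hxy)
    rw [hammingDist_comm, hammingDist_eq_hammingNorm, neg_add_eq_sub]
    exact Nat.ceil_le.2 h5

/-- The asymptotic rate of the largest `F`-closed codes. -/
noncomputable def rate {S : Sig} {A : Type} [Fintype A] [DecidableEq A] (F : Alg S A) (δ : ℝ) :
    ℝ :=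
  limsup (fun n : ℕ => Real.logb 2 (maxClosed F n ⌈δ * n⌉₊) / n) atTop

/-- The asymptotic rate `R(δ)` of the best binary codes. -/
noncomputable def R (δ : ℝ) : ℝ :=
  limsup (fun n : ℕ => Real.logb 2 (maxCode (ZMod 2) n ⌈δ * n⌉₊) / n) atTop

lemma maxCode_le (n d : ℕ) : maxCode (ZMod 2) n d ≤ 2 ^ n := by
  refine csSup_le ⟨0, ∅, ?_, by simp⟩ ?_
  · intro x hx
    simp at hx
  · rintro m ⟨C, -, rfl⟩
    have := Finset.card_le_univ C
    simpa [ZMod.card] using this

lemma logb_le_one {m n : ℕ} (h : m ≤ 2 ^ n) : Real.logb 2 m / n ≤ 1 := by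
  rcases Nat.eq_zero_or_pos m with rfl | hm
  · simp
  · have h1 : Real.logb 2 m ≤ n := by
      rw [Real.logb_le_iff_le_rpow (by norm_num) (by exact_mod_cast hm), Real.rpow_natCast]
      exact_mod_cast h
    rcases Nat.eq_zero_or_pos n with rfl | hn
    · simp
    · rw [div_le_one (by exact_mod_cast hn)]
      exact h1

lemma logb_nonneg' (m n : ℕ) : 0 ≤ Real.logb 2 m / n := by
  apply div_nonneg _ (Nat.cast_nonneg _)
  rcases Nat.eq_zero_or_pos m with rfl | hm
  · simp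
  · exact Real.logb_nonneg (by norm_num) (by exact_mod_cast hm)

lemma bdd_above (u : ℕ → ℕ) (h : ∀ n, u n ≤ 2 ^ n) :
    IsBoundedUnder (· ≤ ·) atTop (fun n : ℕ => Real.logb 2 (u n) / n) :=
  ⟨1, by
    rw [eventually_map]
    exact Eventually.of_forall fun n => logb_le_one (h n)⟩

lemma bdd_below (u : ℕ → ℕ) :
    IsCoboundedUnder (· ≤ ·) atTop (fun n : ℕ => Real.logb 2 (u n) / n) := by
  apply IsBoundedUnder.isCoboundedUnder_le
  exact ⟨0, by
    rw [eventually_map]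
    exact Eventually.of_forall fun n => logb_nonneg' _ _⟩

lemma rate_le_R {S : Sig} (F : Alg S (ZMod 2)) (δ : ℝ) : rate F δ ≤ R δ := by
  apply limsup_le_limsup
  · apply Eventually.of_forall
    intro n
    show Real.logb 2 (maxClosed F n ⌈δ * n⌉₊) / n ≤ Real.logb 2 (maxCode (ZMod 2) n ⌈δ * n⌉₊) / n
    apply div_le_div_of_nonneg_right _ (Nat.cast_nonneg _)
    rcases Nat.eq_zero_or_pos (maxClosed F n ⌈δ * n⌉₊) with h | h
    · rw [h]
      simp only [Nat.cast_zero, Real.logb_zero]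
      rcases Nat.eq_zero_or_pos (maxCode (ZMod 2) n ⌈δ * n⌉₊) with h' | h'
      · rw [h']
        simp
      · exact Real.logb_nonneg (by norm_num) (by exact_mod_cast h')
    · exact Real.logb_le_logb_of_le (by norm_num) (by exact_mod_cast h)
        (by exact_mod_cast maxClosed_le_maxCode F n _)
  · exact bdd_below _
  · exact bdd_above _ fun n => maxCode_le n _

lemma le_rate {S : Sig} (F : Alg S (ZMod 2)) (δ c : ℝ)
    (h : ∀ n : ℕ, (2 : ℝ) ^ (c * n) ≤ maxClosed F n ⌈δ * n⌉₊) : c ≤ rate F δ := by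
  have h1 : ∃ᶠ n : ℕ in atTop, c ≤ Real.logb 2 (maxClosed F n ⌈δ * n⌉₊) / n := by
    apply Eventually.frequently
    filter_upwards [eventually_gt_atTop 0] with n hn
    have hn' : (0 : ℝ) < n := by exact_mod_cast hn
    rw [le_div_iff₀ hn']
    have h2 : (0 : ℝ) < maxClosed F n ⌈δ * n⌉₊ :=
      lt_of_lt_of_le (Real.rpow_pos_of_pos (by norm_num) _) (h n)
    rw [Real.le_logb_iff_rpow_le (by norm_num) h2]
    exact h n
  exact le_limsup_of_frequently_le h1
    (bdd_above _ fun n => (maxClosed_le_maxCode F n _).trans (maxCode_le n _))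

lemma nonaffine_eq {S : Sig} (F : Alg S (ZMod 2)) (hF : ∃ j, ¬ Affine (F j)) (n d : ℕ)
    (hd : 1 ≤ d) (hdn : d ≤ n) : maxClosed F n d = 2 ^ (n / d) := by
  apply le_antisymm
  · obtain ⟨j, hj⟩ := hF
    apply maxClosed_le
    intro C hC hm
    have := Pool.Agent.Y246.PD.t n d (S.ar j) (fun _ => F j) ∅ C hd (fun _ _ => hj)
      (fun w hw => hC j w hw) hm
    rw [Finset.card_empty] at this
    rw [maxCode_zero, mul_one] at this
    exact this
  · have := block_le F n d hd hdn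
    simpa [ZMod.card] using this

lemma nonaffine_rate {S : Sig} (F : Alg S (ZMod 2)) (hF : ∃ j, ¬ Affine (F j)) (δ : ℝ)
    (h0 : 0 < δ) (h1 : δ < 1 / 2) : rate F δ = 0 := by
  have key : Tendsto (fun n : ℕ => Real.logb 2 (maxClosed F n ⌈δ * n⌉₊) / n) atTop (nhds 0) := by
    have hlim : Tendsto (fun n : ℕ => (1 / δ) / (n : ℝ)) atTop (nhds 0) :=
      tendsto_const_div_atTop_nhds_zero_nat _
    refine tendsto_of_tendsto_of_tendsto_of_le_of_le' tendsto_const_nhds hlim ?_ ?_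
    · exact Eventually.of_forall fun n => logb_nonneg' _ _
    · filter_upwards [eventually_gt_atTop 0] with n hn
      have hn' : (0 : ℝ) < n := by exact_mod_cast hn
      have hpos : 0 < δ * n := mul_pos h0 hn'
      have hc : 1 ≤ ⌈δ * n⌉₊ := Nat.one_le_iff_ne_zero.2 (Nat.ceil_pos.2 hpos).ne'
      have hcn : ⌈δ * n⌉₊ ≤ n := Nat.ceil_le.2 (by nlinarith)
      rw [nonaffine_eq F hF n _ hc hcn]
      apply div_le_div_of_nonneg_right _ hn'.le
      push_cast
      rw [Real.logb_pow, Real.logb_self_eq_one (by norm_num), mul_one]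
      have h2 : ((n / ⌈δ * n⌉₊ : ℕ) : ℝ) ≤ (n : ℝ) / (⌈δ * n⌉₊ : ℝ) := Nat.cast_div_le
      refine h2.trans ?_
      rw [div_le_div_iff₀ (by exact_mod_cast hc) h0]
      have := Nat.le_ceil (δ * n)
      linarith
  exact key.limsup_eq

end Pool.Agent.Y817.PD
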