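import Pool.Agent.Y817.PD.Low
import Pool.Agent.Y809.PD.Cls
import Pool.Agent.Y246.PD.Bin
import Pool.Agent.Y888.PD.GV
import Pool.Agent.Y394.PD.Upper

namespace Pool.Agent.Y817.PD

open Filter

/-- The largest size of a code `C ⊆ A^n` of minimum distance at least `d` that is closed under all
operations of `F` (applied coordinatewise). -/
noncomputable def maxClosed {S : Sig} {A : Type} [Fintype A] [DecidableEq A] (F : Alg S A)
    (n d : ℕ) : ℕ :=
  sSup {m | ∃ C : Finset (Fin n → A), Closed (prodAlg fun _ => F) (C : Set (Fin n → A)) ∧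
    MinDist C d ∧ C.card = m}

/-- The binary entropy function `H₂(x) = - x log₂ x - (1 - x) log₂ (1 - x)`. -/
noncomputable def H (x : ℝ) : ℝ := -x * Real.logb 2 x - (1 - x) * Real.logb 2 (1 - x)

section basic

variable {S : Sig} {A : Type} [Fintype A] [DecidableEq A]

lemma maxClosed_bdd (F : Alg S A) (n d : ℕ) :
    BddAbove {m | ∃ C : Finset (Fin n → A), Closed (prodAlg fun _ => F) (C : Set (Fin n → A)) ∧
      MinDist C d ∧ C.card = m} := by
  refine ⟨Fintype.card (Fin n → A), ?_⟩
  rintro m ⟨C, -, -, rfl⟩
  exact Finset.card_le_univ C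

lemma le_maxClosed (F : Alg S A) {n d : ℕ} (C : Finset (Fin n → A))
    (h1 : Closed (prodAlg fun _ => F) (C : Set (Fin n → A))) (h2 : MinDist C d) :
    C.card ≤ maxClosed F n d :=
  le_csSup (maxClosed_bdd F n d) ⟨C, h1, h2, rfl⟩

variable (A) in
lemma maxCode_bdd (n d : ℕ) :
    BddAbove {m | ∃ C : Finset (Fin n → A), MinDist C d ∧ C.card = m} := by
  refine ⟨Fintype.card (Fin n → A), ?_⟩
  rintro m ⟨C, -, rfl⟩
  exact Finset.card_le_univ C

lemma le_maxCode {n d : ℕ} (C : Finset (Fin n → A)) (h2 : MinDist C d) :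
    C.card ≤ maxCode A n d :=
  le_csSup (maxCode_bdd A n d) ⟨C, h2, rfl⟩

/-- An upper bound for all closed codes is an upper bound for `maxClosed`. -/
lemma maxClosed_le (F : Alg S A) {n d N : ℕ}
    (h : ∀ C : Finset (Fin n → A), Closed (prodAlg fun _ => F) (C : Set (Fin n → A)) →
      MinDist C d → C.card ≤ N) : maxClosed F n d ≤ N := by
  unfold maxClosed
  by_cases hne : {m | ∃ C : Finset (Fin n → A),
      Closed (prodAlg fun _ => F) (C : Set (Fin n → A)) ∧ MinDist C d ∧ C.card = m}.Nonempty
  · refine csSup_le hne ?_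
    rintro m ⟨C, h1, h2, rfl⟩
    exact h C h1 h2
  · rw [Set.not_nonempty_iff_eq_empty.1 hne]
    simp

lemma maxClosed_pow_le (F : Alg S A) {n d e N : ℕ} (he : 1 ≤ e)
    (h : ∀ C : Finset (Fin n → A), Closed (prodAlg fun _ => F) (C : Set (Fin n → A)) →
      MinDist C d → C.card ^ e ≤ N) : maxClosed F n d ^ e ≤ N := by
  by_cases hne : {m | ∃ C : Finset (Fin n → A),
      Closed (prodAlg fun _ => F) (C : Set (Fin n → A)) ∧ MinDist C d ∧ C.card = m}.Nonempty
  · obtain ⟨C, h1, h2, h3⟩ := Nat.sSup_mem hne (maxClosed_bdd F n d)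
    have : maxClosed F n d = C.card := h3.symm
    rw [this]
    exact h C h1 h2
  · unfold maxClosed
    rw [Set.not_nonempty_iff_eq_empty.1 hne]
    simp [Nat.pos_iff_ne_zero.1 he]

/-- The block code. -/
def blk (n d : ℕ) (h : 0 < n / d) (i : Fin n) : Fin (n / d) :=
  ⟨min (i / d) (n / d - 1), by
    have := min_le_right ((i : ℕ) / d) (n / d - 1)
    omega⟩

lemma block_le (F : Alg S A) (n d : ℕ) (hd : 1 ≤ d) (hdn : d ≤ n) :
    Fintype.card A ^ (n / d) ≤ maxClosed F n d := by
  have hpos : 0 < n / d := Nat.div_pos hdn hd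
  let e : (Fin (n / d) → A) → (Fin n → A) := fun x i => x (blk n d hpos i)
  have hfib : ∀ b : Fin (n / d), d ≤ (Finset.univ.filter fun i : Fin n => blk n d hpos i = b).card := by
    intro b
    have hlt : ∀ k : Fin d, (b : ℕ) * d + k < n := by
      intro k
      have h1 := b.2
      have h2 : ((b : ℕ) + 1) * d ≤ n / d * d := Nat.mul_le_mul_right _ h1
      have h3 := Nat.div_mul_le_self n d
      have h4 := k.2
      nlinarith
    have : (Finset.univ : Finset (Fin d)).card ≤
        (Finset.univ.filter fun i : Fin n => blk n d hpos i = b).card := by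
      refine Finset.card_le_card_of_injOn (fun k => ⟨(b : ℕ) * d + k, hlt k⟩) ?_ ?_
      · intro k _
        simp only [Finset.coe_filter, Finset.mem_univ, true_and, Set.mem_ofPred_eq]
        apply Fin.ext
        show min (((b : ℕ) * d + k) / d) (n / d - 1) = b
        have h5 : ((b : ℕ) * d + k) / d = b := by
          rw [mul_comm, Nat.mul_add_div (by omega)]
          rw [Nat.div_eq_of_lt k.2]
          simp
        rw [h5]
        have := b.2
        omega
      · intro k _ k' _ hk
        apply Fin.ext
        have := congrArg Fin.val hk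
        simp only at this
        omega
    simpa using this
  have hinj : Function.Injective e := by
    intro x y hxy
    funext b
    have h1 := hfib b
    have h2 : 0 < (Finset.univ.filter fun i : Fin n => blk n d hpos i = b).card := by omega
    obtain ⟨i, hi⟩ := Finset.card_pos.1 h2
    have h3 : blk n d hpos i = b := by simpa using hi
    have h4 := congrFun hxy i
    simp only [e, h3] at h4
    exact h4
  have key := le_maxClosed (n := n) (d := d) F (Finset.univ.image e) ?_ ?_
  · rw [Finset.card_image_of_injective _ hinj] at key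
    simpa using key
  · intro j x hx
    have hx' : ∀ l, ∃ y, e y = x l := fun l => by
      obtain ⟨y, -, hy⟩ := Finset.mem_image.1 (Finset.mem_coe.1 (hx l))
      exact ⟨y, hy⟩
    choose y hy using hx'
    rw [Finset.mem_coe, Finset.mem_image]
    refine ⟨fun b => F j (fun l => y l b), Finset.mem_univ _, ?_⟩
    funext i
    simp only [e, prodAlg]
    congr 1
    funext l
    rw [← hy l]
  · intro x hx y hy hxy
    obtain ⟨x', -, rfl⟩ := Finset.mem_image.1 hx
    obtain ⟨y', -, rfl⟩ := Finset.mem_image.1 hy
    have hne : x' ≠ y' := fun h => hxy (by rw [h])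
    obtain ⟨b, hb⟩ := Function.ne_iff.1 hne
    refine (hfib b).trans ?_
    unfold hammingDist
    apply Finset.card_le_card
    intro i
    simp only [Finset.mem_filter, Finset.mem_univ, true_and, e]
    intro hi
    rw [hi]
    exact hb

lemma one_le_maxClosed [Nonempty A] (F : Alg S A) (hid : Idem F) (n d : ℕ) :
    1 ≤ maxClosed F n d := by
  obtain ⟨a⟩ := ‹Nonempty A›
  have := le_maxClosed (n := n) (d := d) F {fun _ => a} ?_ ?_
  · simpa using this
  · intro j x hx
    have hx' : ∀ l, x l = fun _ => a := fun l => by simpa using hx l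
    rw [Finset.mem_coe, Finset.mem_singleton]
    funext i
    have : (fun l => x l i) = fun _ => a := by
      funext l
      rw [hx' l]
    simp only [prodAlg, this]
    exact hid j a
  · intro x hx y hy hxy
    rw [Finset.mem_singleton] at hx hy
    exact absurd (hx.trans hy.symm) hxy

lemma block_le' [Nonempty A] (F : Alg S A) (hid : Idem F) (n d : ℕ) (hd : 1 ≤ d) :
    Fintype.card A ^ (n / d) ≤ maxClosed F n d := by
  rcases le_or_gt d n with h | h
  · exact block_le F n d hd h
  · rw [Nat.div_eq_of_lt h, pow_zero]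
    exact one_le_maxClosed F hid n d

lemma maxCode_zero [Nonempty A] (d : ℕ) : maxCode A 0 d = 1 := by
  apply le_antisymm
  · refine csSup_le ⟨0, ∅, ?_, by simp⟩ ?_
    · intro x hx
      simp at hx
    · rintro m ⟨C, -, rfl⟩
      have := Finset.card_le_univ C
      simpa using this
  · have := le_maxCode (n := 0) (d := d) ({fun i => i.elim0} : Finset (Fin 0 → A)) (by
      intro x hx y hy hxy
      rw [Finset.mem_singleton] at hx hy
      exact absurd (hx.trans hy.symm) hxy)
    simpa using this

lemma maxClosed_le_maxCode (F : Alg S A) (n d : ℕ) : maxClosed F n d ≤ maxCode A n d :=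
  maxClosed_le F fun C _ h => le_maxCode C h

end basic

end Pool.Agent.Y817.PD
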