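import Pool.Agent.Y817.PD.Stm

namespace Pool.Agent.Y817.PD

/-! ## The lower bound: good codes from an abelian subalgebra -/

lemma exists_t (p : ℝ) (hp : 2 ≤ p) (δ : ℝ) (h0 : 0 < δ) (h1 : δ < 1 / 2) :
    ∃ t : ℝ, 0 < t ∧ t ≤ 1 ∧ 1 < p * t ^ δ / (1 + (p - 1) * t) := by
  set s : ℝ := (1 - 2 * δ) / 2 with hs
  have hs0 : 0 < s := by rw [hs]; linarith
  have hs1 : s < 1 / 2 := by rw [hs]; linarith
  have ht0 : 0 < 1 - s := by linarith
  refine ⟨1 - s, ht0, by linarith, ?_⟩
  have hden : 0 < 1 + (p - 1) * (1 - s) := by nlinarith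
  have hpow : 0 < (1 - s) ^ δ := Real.rpow_pos_of_pos ht0 _
  have hp0 : 0 < p := by linarith
  have hnum : 0 < p * (1 - s) ^ δ := mul_pos hp0 hpow
  have hlog : 0 < Real.log (p * (1 - s) ^ δ / (1 + (p - 1) * (1 - s))) := by
    rw [Real.log_div hnum.ne' hden.ne', Real.log_mul hp0.ne' hpow.ne', Real.log_rpow ht0]
    have e1 : -(s / (1 - s)) ≤ Real.log (1 - s) := by
      have := Real.log_le_sub_one_of_pos (inv_pos.2 ht0)
      rw [Real.log_inv] at this
      have e : (1 - s)⁻¹ - 1 = s / (1 - s) := by field_simp; ring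
      linarith
    have e2 : Real.log (1 + (p - 1) * (1 - s)) ≤ Real.log p - (p - 1) * s / p := by
      have h3 : (1 + (p - 1) * (1 - s)) = p * (1 - (p - 1) * s / p) := by field_simp; ring
      have h4 : 0 < 1 - (p - 1) * s / p := by
        rw [h3] at hden
        exact (pos_iff_pos_of_mul_pos hden).1 hp0
      rw [h3, Real.log_mul hp0.ne' h4.ne']
      have := Real.log_le_sub_one_of_pos h4
      linarith
    have e3 : δ * (s / (1 - s)) < s / 2 := by
      have : δ / (1 - s) < 1 / 2 := by
        rw [div_lt_div_iff₀ ht0 (by norm_num)]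
        rw [hs]; linarith
      have h5 : δ * (s / (1 - s)) = s * (δ / (1 - s)) := by ring
      rw [h5]
      nlinarith
    have e4 : s / 2 ≤ (p - 1) * s / p := by
      rw [div_le_div_iff₀ (by norm_num) hp0]
      nlinarith
    have e5 : δ * -(s / (1 - s)) ≤ δ * Real.log (1 - s) := mul_le_mul_of_nonneg_left e1 h0.le
    linarith
  have hx : 0 < p * (1 - s) ^ δ / (1 + (p - 1) * (1 - s)) := div_pos hnum hden
  exact (Real.log_pos_iff hx.le).1 hlog

lemma pow_eq_two_rpow (x : ℝ) (hx : 0 < x) (n : ℕ) : (2 : ℝ) ^ (Real.logb 2 x * n) = x ^ n := by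
  rw [Real.rpow_mul (by norm_num), Real.rpow_logb (by norm_num) (by norm_num) hx,
    Real.rpow_natCast]

/-- A nontrivial closed set contains a minimal nontrivial closed set. -/
lemma exists_minimal {S : Sig} {A : Type} [Finite A] (F : Alg S A) (U : Set A) (hU : Closed F U)
    (hn : U.Nontrivial) : ∃ V : Set A, V ⊆ U ∧ Closed F V ∧ V.Nontrivial ∧
      ∀ V' : Set A, V' ⊆ V → Closed F V' → V'.Subsingleton ∨ V' = V := by
  classical
  let P : Set (Set A) := {V | V ⊆ U ∧ Closed F V ∧ V.Nontrivial}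
  have hfin : P.Finite := Set.toFinite _
  obtain ⟨V, hV⟩ := hfin.exists_minimal ⟨U, subset_rfl, hU, hn⟩
  refine ⟨V, hV.1.1, hV.1.2.1, hV.1.2.2, fun V' h1 h2 => ?_⟩
  by_cases h3 : V'.Subsingleton
  · exact Or.inl h3
  · right
    have h4 : V'.Nontrivial := Set.not_subsingleton_iff.1 h3
    exact Set.Subset.antisymm h1 (hV.2 ⟨h1.trans hV.1.1, h2, h4⟩ h1)

/-- The algebra on a closed subset. -/
def sub {S : Sig} {A : Type} (F : Alg S A) (U : Set A) (hU : Closed F U) : Alg S U :=
  fun j x => ⟨F j (fun l => (x l : A)), hU j _ fun l => (x l).2⟩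

lemma sub_eval {S : Sig} {A : Type} (F : Alg S A) (U : Set A) (hU : Closed F U) {V : Type}
    (x : V → U) (t : Term S V) :
    ((t.eval (sub F U hU) x : U) : A) = t.eval F (fun v => (x v : A)) := by
  induction t with
  | var v => rfl
  | app j t ih =>
    simp only [Term.eval, sub]
    congr 1
    funext l
    exact ih l

lemma abelian_sub {S : Sig} {A : Type} (F : Alg S A) (U : Set A) (hU : Closed F U)
    (h : Abelian F U) : Abelian (sub F U hU) Set.univ := by
  intro V W _ _ t x x' y y' _ _ _ _ he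
  have key := h V W t (fun v => x v) (fun v => x' v) (fun w => y w) (fun w => y' w)
    (fun v => (x v).2) (fun v => (x' v).2) (fun v => (y v).2) (fun v => (y' v).2)
  have e : ∀ (x : V → U) (y : W → U), (fun v => ((Sum.elim x y v : U) : A)) =
      Sum.elim (fun v => (x v : A)) (fun w => (y w : A)) := by
    intro x y
    funext v
    cases v <;> rfl
  apply Subtype.ext
  rw [sub_eval, sub_eval, e, e]
  apply key
  have := congrArg (Subtype.val) he
  rwa [sub_eval, sub_eval, e, e] at this

lemma idem_sub {S : Sig} {A : Type} (F : Alg S A) (U : Set A) (hU : Closed F U) (h : Idem F) :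
    Idem (sub F U hU) := by
  intro j a
  apply Subtype.ext
  exact h j a

lemma minimal_sub {S : Sig} {A : Type} (F : Alg S A) (V : Set A) (hV : Closed F V)
    (hmin : ∀ V' : Set A, V' ⊆ V → Closed F V' → V'.Subsingleton ∨ V' = V) (X : Set V)
    (hX : Closed (sub F V hV) X) : X.Subsingleton ∨ X = Set.univ := by
  have hcl : Closed F (Subtype.val '' X) := by
    intro j x hx
    choose y hy hyx using hx
    refine ⟨sub F V hV j y, hX j y hy, ?_⟩
    simp only [sub]
    congr 1
    funext l
    exact hyx l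
  rcases hmin _ (by rintro _ ⟨a, -, rfl⟩; exact a.2) hcl with h | h
  · left
    intro a ha b hb
    exact Subtype.ext (h ⟨a, ha, rfl⟩ ⟨b, hb, rfl⟩)
  · right
    ext a
    simp only [Set.mem_univ, iff_true]
    have : (a : A) ∈ Subtype.val '' X := by rw [h]; exact a.2
    obtain ⟨b, hb, hba⟩ := this
    rwa [Subtype.ext hba] at hb

lemma zmod2_eq : ∀ u v : ZMod 2, u ≠ 0 → v ≠ 0 → u = v := by decide

open Classical in
lemma card_sub {p n : ℕ} [Fact p.Prime] (W : Submodule (ZMod p) (Fin n → ZMod p)) :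
    Nat.card W = (Finset.univ.filter (fun x => x ∈ W)).card := by
  rw [Nat.card_eq_fintype_card]
  exact Fintype.card_subtype _

/-- Codes from linear codes, two letters. -/
lemma low_set (hg : StmGV) {S : Sig} {A : Type} [Fintype A] [DecidableEq A] (F : Alg S A) (a b : A)
    (hab : a ≠ b) (hF : ∀ j, ∃ l, ∀ x : Fin (S.ar j) → A, (∀ l, x l = a ∨ x l = b) →
      F j x = x l) (δ : ℝ) (h0 : 0 < δ) (h1 : δ < 1 / 2) :
    ∃ ρ : ℝ, 0 < ρ ∧ ∀ n : ℕ, ∃ C : Finset (Fin n → A),
      Closed (prodAlg fun _ => F) (C : Set (Fin n → A)) ∧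
      (∀ x ∈ C, ∀ y ∈ C, x ≠ y → δ * n ≤ hammingDist x y) ∧ (2 : ℝ) ^ (ρ * n) ≤ C.card := by
  classical
  obtain ⟨t, ht0, ht1, ht⟩ := exists_t 2 le_rfl δ h0 h1
  refine ⟨Real.logb 2 (2 * t ^ δ / (1 + (2 - 1) * t)), Real.logb_pos (by norm_num) ht,
    fun n => ?_⟩
  have : Fact (Nat.Prime 2) := ⟨Nat.prime_two⟩
  obtain ⟨W, -, hW, hcard⟩ := hg 2 n δ t h0 (by linarith) ht0 ht1
  let φ : (Fin n → ZMod 2) → (Fin n → A) := fun w i => if w i = 0 then a else b
  have hφ : Function.Injective φ := by
    intro w w' h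
    funext i
    have hi := congrFun h i
    simp only [φ] at hi
    by_cases h2 : w i = 0 <;> by_cases h3 : w' i = 0
    · rw [h2, h3]
    · simp [h2, h3, hab] at hi
    · simp [h2, h3, hab.symm] at hi
    · exact zmod2_eq _ _ h2 h3
  let WF : Finset (Fin n → ZMod 2) := Finset.univ.filter (fun x => x ∈ W)
  refine ⟨WF.image φ, ?_, ?_, ?_⟩
  · intro j x hx
    obtain ⟨l, hl⟩ := hF j
    have : prodAlg (fun _ => F) j x = x l := by
      funext i
      apply hl
      intro l
      obtain ⟨w, -, hw⟩ := Finset.mem_image.1 (hx l)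
      rw [← hw]
      simp only [φ]
      split_ifs
      · left; rfl
      · right; rfl
    rw [this]
    exact hx l
  · intro x hx y hy hxy
    obtain ⟨w, hw, rfl⟩ := Finset.mem_image.1 hx
    obtain ⟨w', hw', rfl⟩ := Finset.mem_image.1 hy
    have hw1 : w ∈ W := by simpa [WF] using hw
    have hw2 : w' ∈ W := by simpa [WF] using hw'
    have hne : w - w' ≠ 0 := by
      intro h
      exact hxy (by rw [sub_eq_zero.1 h])
    have h3 := hW _ (W.sub_mem hw1 hw2) hne
    refine h3.trans ?_
    have : hammingNorm (w - w') ≤ hammingDist (φ w) (φ w') := by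
      unfold hammingNorm hammingDist
      apply Finset.card_le_card
      intro i
      simp only [Finset.mem_filter, Finset.mem_univ, true_and, Pi.sub_apply]
      intro hi he
      apply hi
      have h4 : w i = w' i := by
        simp only [φ] at he
        by_cases h2 : w i = 0 <;> by_cases h3 : w' i = 0
        · rw [h2, h3]
        · simp [h2, h3, hab] at he
        · simp [h2, h3, hab.symm] at he
        · exact zmod2_eq _ _ h2 h3
      rw [h4, sub_self]
    exact_mod_cast this
  · rw [pow_eq_two_rpow _ (by positivity)]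
    · refine le_trans ?_ (le_trans hcard ?_)
      · norm_num
      · rw [Finset.card_image_of_injective _ hφ]
        rw [card_sub]

/-- The code of all words over `B` all of whose functionals lie in `W`. -/
def bigCode (p : ℕ) {n : ℕ} (B : Type) [AddCommGroup B] [Module (ZMod p) B]
    (W : Submodule (ZMod p) (Fin n → ZMod p)) : Set (Fin n → B) :=
  {y | ∀ φ : B →ₗ[ZMod p] ZMod p, (fun i => φ (y i)) ∈ W}

/-- Codes from linear codes over `F_p`, additive operations. -/
lemma bigCode_spec {p n : ℕ} [Fact p.Prime] {S : Sig} {B : Type} [Finite B] [Nontrivial B]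
    [AddCommGroup B] [Module (ZMod p) B] (F : Alg S B)
    (hadd : ∀ (j : S.J) (x y : Fin (S.ar j) → B), F j (x + y) = F j x + F j y)
    (W : Submodule (ZMod p) (Fin n → ZMod p)) (δ : ℝ)
    (hW : ∀ x ∈ W, x ≠ 0 → δ * n ≤ hammingNorm x) :
    Closed (prodAlg fun _ => F) (bigCode p B W) ∧
      (∀ x ∈ bigCode p B W, ∀ y ∈ bigCode p B W, x ≠ y →
        δ * n ≤ (Set.ncard {i | x i ≠ y i} : ℝ)) ∧
      Nat.card W ≤ Nat.card (bigCode p B W) := by
  classical
  have hzero : ∀ j, F j 0 = 0 := fun j => by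
    have := hadd j 0 0
    rw [add_zero] at this
    exact left_eq_add.1 this
  let f : ∀ j, (Fin (S.ar j) → B) →+ B := fun j => ⟨⟨F j, hzero j⟩, hadd j⟩
  let L : ∀ j, (Fin (S.ar j) → B) →ₗ[ZMod p] B := fun j => (f j).toZModLinearMap p
  refine ⟨?_, ?_, ?_⟩
  · intro j x hx φ
    have h2 : (fun i => φ (prodAlg (fun _ => F) j x i)) =
        ∑ l, (fun i => ((φ.comp ((L j).comp (LinearMap.single (ZMod p) (fun _ => B) l)) :
          B →ₗ[ZMod p] ZMod p)) (x l i) : Fin n → ZMod p) := by
      funext i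
      rw [Finset.sum_apply]
      show φ (L j (fun l => x l i)) = _
      simp only [LinearMap.comp_apply]
      rw [← map_sum, ← map_sum]
      congr 2
      simp only [LinearMap.coe_single]
      exact (Finset.univ_sum_single (fun l => x l i)).symm
    rw [h2]
    exact W.sum_mem fun l _ => hx l _
  · intro x hx y hy hxy
    obtain ⟨i, hi⟩ := Function.ne_iff.1 hxy
    have hne : x i - y i ≠ 0 := sub_ne_zero.2 hi
    obtain ⟨φ, hφ⟩ : ∃ φ : B →ₗ[ZMod p] ZMod p, φ (x i - y i) ≠ 0 := by
      by_contra h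
      push Not at h
      exact hne ((Module.forall_dual_apply_eq_zero_iff (ZMod p) _).1 h)
    have h3 := hW ((fun i => φ (x i)) - (fun i => φ (y i))) (W.sub_mem (hx φ) (hy φ)) (by
      intro h
      have := congrFun h i
      simp only [Pi.sub_apply, Pi.zero_apply, ← map_sub] at this
      exact hφ this)
    refine h3.trans ?_
    have : hammingNorm ((fun i => φ (x i)) - (fun i => φ (y i))) ≤ Set.ncard {i | x i ≠ y i} := by
      rw [Set.ncard_eq_toFinset_card']
      unfold hammingNorm
      apply Finset.card_le_card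
      intro i
      simp only [Finset.mem_filter, Finset.mem_univ, true_and, Pi.sub_apply, Set.mem_toFinset,
        Set.mem_ofPred_eq]
      intro hi he
      apply hi
      rw [he, sub_self]
    exact_mod_cast this
  · obtain ⟨b0, hb0⟩ := exists_ne (0 : B)
    refine Nat.card_le_card_of_injective
      (fun w : W => (⟨fun i => (w : Fin n → ZMod p) i • b0, ?_⟩ : bigCode p B W)) ?_
    · intro φ
      have : (fun i => φ ((w : Fin n → ZMod p) i • b0)) = (φ b0) • (w : Fin n → ZMod p) := by
        funext i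
        simp [mul_comm]
      rw [this]
      exact W.smul_mem _ w.2
    · intro w w' h
      apply Subtype.ext
      funext i
      have hi := congrFun (congrArg Subtype.val h) i
      exact smul_left_injective (ZMod p) hb0 hi

lemma exists_prime_smul {S : Sig} {B : Type} [Finite B] [Nontrivial B] [AddCommGroup B]
    (F : Alg S B) (hmin : ∀ V : Set B, Closed F V → V.Subsingleton ∨ V = Set.univ)
    (hadd : ∀ (j : S.J) (x y : Fin (S.ar j) → B), F j (x + y) = F j x + F j y) :
    ∃ p : ℕ, p.Prime ∧ ∀ b : B, p • b = 0 := by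
  have hzero : ∀ j, F j 0 = 0 := fun j => by
    have := hadd j 0 0
    rw [add_zero] at this
    exact left_eq_add.1 this
  let f : ∀ j, (Fin (S.ar j) → B) →+ B := fun j => ⟨⟨F j, hzero j⟩, hadd j⟩
  obtain ⟨p, hp, hpdvd⟩ := Nat.exists_prime_and_dvd (n := Nat.card B)
    (by
      have := Finite.one_lt_card (α := B)
      omega)
  have : Fact p.Prime := ⟨hp⟩
  obtain ⟨b0, hb0⟩ := exists_prime_addOrderOf_dvd_card' p hpdvd
  have hb0' : b0 ≠ 0 := by
    intro h
    rw [h, addOrderOf_zero] at hb0
    exact hp.one_lt.ne hb0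
  refine ⟨p, hp, ?_⟩
  have hcl : Closed F {b : B | p • b = 0} := by
    intro j x hx
    have : p • F j x = F j (p • x) := by
      have := map_nsmul (f j) p x
      exact this.symm
    show p • F j x = 0
    rw [this]
    have h0 : p • x = 0 := by
      funext l
      exact hx l
    rw [h0]
    exact hzero j
  rcases hmin _ hcl with h | h
  · exact absurd (h (show p • b0 = 0 by rw [← hb0]; exact addOrderOf_nsmul_eq_zero b0)
      (show p • (0 : B) = 0 by simp)) hb0'
  · intro b
    have : b ∈ (Set.univ : Set B) := trivial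
    rw [← h] at this
    exact this

lemma low_affine (hg : StmGV) {S : Sig} {B : Type} [Finite B] [Nontrivial B] (F : Alg S B)
    (hmin : ∀ V : Set B, Closed F V → V.Subsingleton ∨ V = Set.univ)
    (G : AddCommGroup B) (hG : ∀ (j : S.J) (x y : Fin (S.ar j) → B),
      F j (fun l => G.add (x l) (y l)) = G.add (F j x) (F j y))
    (δ : ℝ) (h0 : 0 < δ) (h1 : δ < 1 / 2) :
    ∃ ρ : ℝ, 0 < ρ ∧ ∀ n : ℕ, ∃ C : Set (Fin n → B),
      Closed (prodAlg fun _ => F) C ∧
      (∀ x ∈ C, ∀ y ∈ C, x ≠ y → δ * n ≤ (Set.ncard {i | x i ≠ y i} : ℝ)) ∧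
      (2 : ℝ) ^ (ρ * n) ≤ (Nat.card C : ℝ) := by
  obtain ⟨p, hp, hall⟩ := exists_prime_smul F hmin hG
  have : Fact p.Prime := ⟨hp⟩
  let : Module (ZMod p) B := AddCommGroup.zmodModule hall
  have hp2 : (2 : ℝ) ≤ p := by exact_mod_cast hp.two_le
  obtain ⟨t, ht0, ht1, ht⟩ := exists_t p hp2 δ h0 h1
  refine ⟨Real.logb 2 (p * t ^ δ / (1 + (p - 1) * t)), Real.logb_pos (by norm_num) ht,
    fun n => ?_⟩
  obtain ⟨W, -, hW, hcard⟩ := hg p n δ t h0 (by linarith) ht0 ht1
  obtain ⟨h3, h4, h5⟩ := bigCode_spec F hG W δ hW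
  refine ⟨bigCode p B W, h3, h4, ?_⟩
  rw [pow_eq_two_rpow _ (lt_trans one_pos ht)]
  refine hcard.trans ?_
  exact_mod_cast h5

theorem low (hc : StmClass) (hg : StmGV) : StmLow := by
  intro S A _ _ F U hid hU hn hab δ h0 h1
  obtain ⟨V, hVU, hV, hVn, hVmin⟩ := exists_minimal F U hU hn
  have habV : Abelian F V := by
    intro V' W' _ _ t x x' y y' a b c d
    exact hab V' W' t x x' y y' (fun v => hVU (a v)) (fun v => hVU (b v)) (fun v => hVU (c v))
      (fun v => hVU (d v))
  have : Nontrivial V := Set.nontrivial_coe_sort.2 hVn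
  rcases hc S V (sub F V hV) (idem_sub F V hV hid) (abelian_sub F V hV habV)
    (minimal_sub F V hV hVmin) with h | ⟨G, hG⟩
  · obtain ⟨a, ha, b, hb, hne⟩ := hVn
    refine low_set hg F a b hne (fun j => ?_) δ h0 h1
    obtain ⟨l, hl⟩ := h j
    refine ⟨l, fun x hx => ?_⟩
    have hx' : ∀ l, x l ∈ V := fun l => by
      rcases hx l with h | h <;> rw [h] <;> assumption
    have := congrArg Subtype.val (hl (fun l => ⟨x l, hx' l⟩))
    exact this
  · obtain ⟨ρ, hρ, H⟩ := low_affine hg (sub F V hV) (minimal_sub F V hV hVmin) G hG δ h0 h1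
    refine ⟨ρ, hρ, fun n => ?_⟩
    obtain ⟨C, h3, h4, h5⟩ := H n
    classical
    let φ : (Fin n → V) → (Fin n → A) := fun y i => y i
    have hφ : Function.Injective φ := by
      intro y y' h
      funext i
      exact Subtype.ext (congrFun h i)
    refine ⟨(Set.toFinite C).toFinset.image φ, ?_, ?_, ?_⟩
    · intro j x hx
      have hx' : ∀ l, ∃ y ∈ C, φ y = x l := fun l => by
        obtain ⟨y, hy, hyx⟩ := Finset.mem_image.1 (Finset.mem_coe.1 (hx l))
        exact ⟨y, (Set.Finite.mem_toFinset _).1 hy, hyx⟩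
      choose y hy hyx using hx'
      have : prodAlg (fun _ => F) j x = φ (prodAlg (fun _ => sub F V hV) j y) := by
        funext i
        simp only [prodAlg, φ, sub]
        congr 1
        funext l
        rw [← hyx l]
      rw [this]
      have := h3 j y hy
      simp only [Finset.coe_image, Set.Finite.coe_toFinset]
      exact ⟨_, this, rfl⟩
    · intro x hx y hy hxy
      have hx' : ∃ y ∈ C, φ y = x := by
        obtain ⟨y, hy, hyx⟩ := Finset.mem_image.1 hx
        exact ⟨y, (Set.Finite.mem_toFinset _).1 hy, hyx⟩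
      have hy' : ∃ z ∈ C, φ z = y := by
        obtain ⟨y, hy, hyx⟩ := Finset.mem_image.1 hy
        exact ⟨y, (Set.Finite.mem_toFinset _).1 hy, hyx⟩
      obtain ⟨x', hx', rfl⟩ := hx'
      obtain ⟨y', hy', rfl⟩ := hy'
      refine (h4 x' hx' y' hy' (fun h => hxy (by rw [h]))).trans ?_
      rw [Set.ncard_eq_toFinset_card']
      have : (Set.toFinset {i | x' i ≠ y' i}).card ≤ hammingDist (φ x') (φ y') := by
        unfold hammingDist
        apply Finset.card_le_card
        intro i
        simp only [Finset.mem_filter, Finset.mem_univ, true_and, Set.mem_toFinset,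
          Set.mem_ofPred_eq]
        intro hi he
        exact hi (Subtype.ext he)
      exact_mod_cast this
    · rw [Finset.card_image_of_injective _ hφ]
      rw [← Nat.card_eq_card_finite_toFinset]
      exact h5

end Pool.Agent.Y817.PD
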