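import Pool.Agent.Y817.PD.Aff

namespace Pool.Agent.Y817.PD

open Filter

/-- A constraint language on `A`: a family of relations (constraint types) of finite arities. -/
structure Lang (A : Type) where
  K : Type
  ar : K → ℕ
  rel : ∀ k, Set (Fin (ar k) → A)

/-- `C ⊆ A^n` is definable over `Γ` with hidden variables: `C` is the set of those `x` for which
the hidden variables `y` can be chosen such that a set `Q` of constraints with relations of `Γ` and a
set `E` of equalities between variables hold. -/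
def Definable {A : Type} (Γ : Lang A) {n : ℕ} (C : Set (Fin n → A)) : Prop :=
  ∃ (m : ℕ) (E : Set ((Fin n ⊕ Fin m) × (Fin n ⊕ Fin m)))
    (Q : Set (Σ k : Γ.K, (Fin (Γ.ar k) → Fin n ⊕ Fin m))),
    ∀ x : Fin n → A, x ∈ C ↔ ∃ y : Fin m → A,
      (∀ e ∈ E, Sum.elim x y e.1 = Sum.elim x y e.2) ∧
      ∀ c ∈ Q, (fun i => Sum.elim x y (c.2 i)) ∈ Γ.rel c.1

/-- `f` is a polymorphism of `Γ`. -/
def Pol {A : Type} (Γ : Lang A) {k : ℕ} (f : (Fin k → A) → A) : Prop :=
  ∀ (κ : Γ.K) (w : Fin k → (Fin (Γ.ar κ) → A)), (∀ l, w l ∈ Γ.rel κ) →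
    (fun i => f (fun l => w l i)) ∈ Γ.rel κ

/-- The signature of all polymorphisms of `Γ`. -/
def polSig {A : Type} (Γ : Lang A) : Sig where
  J := Σ k : ℕ, {f : (Fin k → A) → A // Pol Γ f}
  ar j := j.1

/-- The algebra of all polymorphisms of `Γ`. -/
def polAlg {A : Type} (Γ : Lang A) : Alg (polSig Γ) A := fun j => j.2.1

/-- The largest size of a `Γ`-definable code of length `n` and minimum distance at least `d`. -/
noncomputable def maxDef {A : Type} [Fintype A] [DecidableEq A] (Γ : Lang A) (n d : ℕ) : ℕ :=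
  sSup {m | ∃ C : Finset (Fin n → A), Definable Γ (C : Set (Fin n → A)) ∧ MinDist C d ∧
    C.card = m}

lemma closed_of_definable {A : Type} (Γ : Lang A) {n : ℕ} (C : Set (Fin n → A))
    (h : Definable Γ C) : Closed (prodAlg fun _ => polAlg Γ) C := by
  obtain ⟨m, E, Q, hC⟩ := h
  intro j x hx
  rw [hC]
  have hx' := fun l => (hC (x l)).1 (hx l)
  choose y hy using hx'
  have e : ∀ v : Fin n ⊕ Fin m,
      Sum.elim (prodAlg (fun _ => polAlg Γ) j x) (fun i => j.2.1 (fun l => y l i)) v =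
        j.2.1 (fun l => Sum.elim (x l) (y l) v) := by
    intro v
    cases v <;> rfl
  refine ⟨fun i => j.2.1 (fun l => y l i), ?_, ?_⟩
  · intro e' he
    rw [e, e]
    have : (fun l => Sum.elim (x l) (y l) e'.1) = fun l => Sum.elim (x l) (y l) e'.2 := by
      funext l
      exact (hy l).1 e' he
    exact congrArg j.2.1 this
  · intro c hc
    have : (fun i => Sum.elim (prodAlg (fun _ => polAlg Γ) j x)
        (fun i => j.2.1 (fun l => y l i)) (c.2 i)) =
        fun i => j.2.1 (fun l => Sum.elim (x l) (y l) (c.2 i)) := by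
      funext i
      exact e _
    rw [this]
    exact j.2.2 c.1 (fun l i => Sum.elim (x l) (y l) (c.2 i)) fun l => (hy l).2 c hc

/-- Geiger; Bodnarchuk, Kaluzhnin, Kotov, Romov: nonempty closed sets are definable. -/
lemma definable_of_closed {A : Type} [Fintype A] [DecidableEq A] (Γ : Lang A) {n : ℕ}
    (C : Finset (Fin n → A)) (hne : C.Nonempty)
    (h : Closed (prodAlg fun _ => polAlg Γ) (C : Set (Fin n → A))) :
    Definable Γ (C : Set (Fin n → A)) := by
  classical
  -- enumerate the words of `C`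
  let m := C.card
  let c : Fin m → (Fin n → A) := fun l => (C.equivFin.symm l : C)
  have hc : ∀ l, c l ∈ C := fun l => (C.equivFin.symm l).2
  have hsurj : ∀ x ∈ C, ∃ l, c l = x := fun x hx =>
    ⟨C.equivFin ⟨x, hx⟩, by simp [c]⟩
  -- the hidden variables are the elements of `A^m`
  let N := Fintype.card (Fin m → A)
  let ε : (Fin m → A) ≃ Fin N := Fintype.equivFin _
  refine ⟨N, Set.range (fun i : Fin n => (Sum.inl i, Sum.inr (ε (fun l => c l i)))),
    {q | ∃ (κ : Γ.K) (v : Fin (Γ.ar κ) → (Fin m → A)), (∀ l, (fun i => v i l) ∈ Γ.rel κ) ∧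
      q = ⟨κ, fun i => Sum.inr (ε (v i))⟩}, ?_⟩
  intro x
  constructor
  · intro hx
    obtain ⟨l, hl⟩ := hsurj x hx
    refine ⟨fun z => ε.symm z l, ?_, ?_⟩
    · rintro _ ⟨i, rfl⟩
      simp only [Sum.elim_inl, Sum.elim_inr, Equiv.symm_apply_apply]
      rw [hl]
    · rintro _ ⟨κ, v, hv, rfl⟩
      simp only [Sum.elim_inr, Equiv.symm_apply_apply]
      exact hv l
  · rintro ⟨y, hE, hQ⟩
    have hpol : Pol Γ (fun z : Fin m → A => y (ε z)) := by
      intro κ w hw
      exact hQ ⟨κ, fun i => Sum.inr (ε (fun l => w l i))⟩ ⟨κ, fun i l => w l i, hw, rfl⟩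
    have hx : x = prodAlg (fun _ => polAlg Γ) (⟨m, _, hpol⟩ : (polSig Γ).J) c := by
      funext i
      exact hE _ ⟨i, rfl⟩
    rw [hx]
    exact h ⟨m, _, hpol⟩ c hc

lemma maxDef_eq {A : Type} [Fintype A] [DecidableEq A] (Γ : Lang A) (n d : ℕ) :
    maxDef Γ n d = maxClosed (polAlg Γ) n d := by
  have hb : BddAbove {m | ∃ C : Finset (Fin n → A), Definable Γ (C : Set (Fin n → A)) ∧
      MinDist C d ∧ C.card = m} := by
    refine ⟨Fintype.card (Fin n → A), ?_⟩
    rintro m ⟨C, -, -, rfl⟩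
    exact Finset.card_le_univ C
  apply le_antisymm
  · unfold maxDef
    by_cases hne : {m | ∃ C : Finset (Fin n → A), Definable Γ (C : Set (Fin n → A)) ∧
      MinDist C d ∧ C.card = m}.Nonempty
    · refine csSup_le hne ?_
      rintro m ⟨C, h1, h2, rfl⟩
      exact le_maxClosed _ C (closed_of_definable Γ _ h1) h2
    · rw [Set.not_nonempty_iff_eq_empty.1 hne]
      simp
  · apply maxClosed_le
    intro C h1 h2
    rcases C.eq_empty_or_nonempty with rfl | hne
    · simp
    · exact le_csSup hb ⟨C, definable_of_closed Γ C hne h1, h2, rfl⟩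

/-- The asymptotic rate of the best `Γ`-definable codes. -/
noncomputable def rateDef {A : Type} [Fintype A] [DecidableEq A] (Γ : Lang A) (δ : ℝ) : ℝ :=
  limsup (fun n : ℕ => Real.logb 2 (maxDef Γ n ⌈δ * n⌉₊) / n) atTop

lemma rateDef_eq {A : Type} [Fintype A] [DecidableEq A] (Γ : Lang A) (δ : ℝ) :
    rateDef Γ δ = rate (polAlg Γ) δ := by
  unfold rateDef rate
  simp only [maxDef_eq]

end Pool.Agent.Y817.PD
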